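import Mathlib
import Pool.Agent.P.MP_a73859_co.Main

set_option autoImplicit false

theorem Pool.Agent.Results.MP_a73859_co.Counterexample.result :
    ∃ (n : ℕ) (G : SimpleGraph (Fin n)) (_ : DecidableRel G.Adj),
      4 ≤ n ∧
      (∀ S : Finset (Fin n), S.card ≤ 2 → (G.induce ((S : Set (Fin n))ᶜ)).Connected) ∧
      (∃ v, Odd (G.degree v)) ∧
      ∃ q : ℝ, 1 < q ∧ q < 2 ∧
        ∑ A ∈ G.edgeFinset.powerset, (-1 : ℝ) ^ (G.edgeFinset \ A).card *
          q ^ ((A.card : ℤ) - (n : ℤ) +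
            (Nat.card (SimpleGraph.fromEdgeSet (A : Set (Sym2 (Fin n)))).ConnectedComponent : ℤ))
          = 0 :=
  Pool.Agent.P.MP_a73859_co.main
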