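import Mathlib
import Pool.Agent.P.MP_a73859_co.Eul

set_option autoImplicit false

theorem Pool.Agent.Results.MP_a73859_co.PlanarEulerian.result :
    ∃ (n : ℕ) (G : SimpleGraph (Fin n)) (_ : DecidableRel G.Adj),
      4 ≤ n ∧
      (∀ S : Finset (Fin n), S.card ≤ 2 → (G.induce ((S : Set (Fin n))ᶜ)).Connected) ∧
      (∃ p : Fin n → ℝ × ℝ, Function.Injective p ∧ ∀ u v x y, G.Adj u v → G.Adj x y →
        s(u, v) ≠ s(x, y) →
          segment ℝ (p u) (p v) ∩ segment ℝ (p x) (p y) ⊆ p '' ({u, v} ∩ {x, y})) ∧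
      (∀ v, Even (G.degree v)) ∧
      Odd ((G.edgeFinset.card : ℤ) - (n : ℤ) + 1) ∧
      ∃ q : ℝ, 1 < q ∧ q < 2 ∧
        ∑ A ∈ G.edgeFinset.powerset, (-1 : ℝ) ^ (G.edgeFinset \ A).card *
          q ^ ((A.card : ℤ) - (n : ℤ) +
            (Nat.card (SimpleGraph.fromEdgeSet (A : Set (Sym2 (Fin n)))).ConnectedComponent : ℤ))
          = 0 :=
  Pool.Agent.P.MP_a73859_co.Eul.main
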